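import Pool.Agent.Helper99.GL.FSpec

/-! Swarm `GL`, part F11: holonomy germs (analytic, invertible, concatenation, existence). -/

set_option autoImplicit false

open Metric Set Filter Topology

namespace Pool.GL.H15

theorem hol_congr (I : Inf) {n : ℕ} {a b : ℂ} {h : ℂ → ℂ} (H : I.Hol n a b h) :
    ∀ {k : ℂ → ℂ}, (∀ᶠ z in 𝓝 (0 : ℂ), k z = h z) → I.Hol n a b k := by
  intro k hk
  cases H with
  | nil _ _ ha hh =>
    refine Inf.Hol.nil a k ha ?_
    filter_upwards [hk, hh] with z h1 h2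
    rw [h1, h2]
  | cons n' _ b' _ g h0 _ hT hH hh =>
    refine Inf.Hol.cons n' a b' b g h0 k hT hH ?_
    filter_upwards [hk, hh] with z h1 h2
    rw [h1, h2]

theorem hol_mem (TR2 : S_TR2) (I : Inf) {n : ℕ} {a b : ℂ} {h : ℂ → ℂ} (H : I.Hol n a b h) :
    a ∈ I.Om := by
  cases H with
  | nil _ _ ha hh => exact ha
  | cons n' _ b' _ g h0 _ hT hH hh => exact (TR2 I a b' g hT).1

theorem hol_snoc (TR2 : S_TR2) (I : Inf) {n : ℕ} {a b : ℂ} {h : ℂ → ℂ} (H : I.Hol n a b h) :
    ∀ {c : ℂ} {g k : ℂ → ℂ}, I.Tr b c g → (∀ᶠ z in 𝓝 (0 : ℂ), k z = g (h z)) →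
      I.Hol (n + 1) a c k := by
  induction H with
  | nil a h ha hh =>
    intro c g k hT hk
    refine Inf.Hol.cons 0 a c c g id k hT
      (Inf.Hol.nil c id (TR2 I a c g hT).2.1 (Eventually.of_forall fun z => rfl)) ?_
    filter_upwards [hk, hh] with z h1 h2
    rw [h1, h2]; rfl
  | cons n a b' b g0 h0 h hT0 hH hh ih =>
    intro c g k hT hk
    refine Inf.Hol.cons (n + 1) a b' c g0 (fun z => g (h0 z)) k hT0
      (ih hT (Eventually.of_forall fun z => rfl)) ?_
    filter_upwards [hk, hh] with z h1 h2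
    rw [h1, h2]

theorem hol2 : S_HOL2 := by
  intro I n m a b c g h H1
  revert c h
  induction H1 with
  | nil a g ha hg =>
    intro c h H2
    rw [Nat.zero_add]
    refine hol_congr I H2 ?_
    filter_upwards [hg] with z h1
    rw [h1]
  | cons n a b' b g0 g1 g hT0 hH hh ih =>
    intro c h H2
    have := ih c h H2
    have e : n + 1 + m = (n + m) + 1 := by omega
    rw [e]
    refine Inf.Hol.cons (n + m) a b' c g0 (fun z => h (g1 z)) _ hT0 this ?_
    filter_upwards [hh] with z h1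
    rw [h1]

theorem tendsto_zero {g : ℂ → ℂ} (hg : AnalyticAt ℂ g 0) (h0 : g 0 = 0) :
    Tendsto g (𝓝 0) (𝓝 0) := by
  have := hg.continuousAt.tendsto
  rwa [h0] at this

theorem hol1 (TR1 : S_TR1) (TR2 : S_TR2) : S_HOL1 := by
  intro I n a b h H
  induction H with
  | nil a h ha hh =>
    have e : (fun z : ℂ => z) =ᶠ[𝓝 0] h := by
      filter_upwards [hh] with z hz using hz.symm
    refine ⟨analyticAt_id.congr e, hh.self_of_nhds, ?_, id,
      Inf.Hol.nil a id ha (Eventually.of_forall fun z => rfl), hh, hh⟩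
    rw [← e.deriv_eq]
    simp
  | cons n a b' b g h k hT hH hk ih =>
    obtain ⟨ha, h0, hd, h', hH', hl, hr⟩ := ih
    obtain ⟨ga, g0, gd, -⟩ := TR1 I a b' g hT
    obtain ⟨haO, hbO, g', hT', gl, gr⟩ := TR2 I a b' g hT
    obtain ⟨ga', g0', gd', -⟩ := TR1 I b' a g' hT'
    have e : (fun z : ℂ => h (g z)) =ᶠ[𝓝 0] k := by
      filter_upwards [hk] with z hz using hz.symm
    have tg := tendsto_zero ga g0
    have tg' := tendsto_zero ga' g0'
    have th := tendsto_zero ha h0
    have hla : AnalyticAt ℂ (fun z : ℂ => h (g z)) 0 := by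
      have : AnalyticAt ℂ h (g 0) := by rw [g0]; exact ha
      exact this.comp ga
    -- continuity of h'
    have th' : Tendsto h' (𝓝 0) (𝓝 0) := by
      -- from `Hol n b b' h'` analytic: reprove by the same lemma
      have key : ∀ {m : ℕ} {x y : ℂ} {f : ℂ → ℂ}, I.Hol m x y f → Tendsto f (𝓝 0) (𝓝 0) := by
        intro m x y f Hf
        induction Hf with
        | nil a h ha hh =>
          have e : (fun z : ℂ => z) =ᶠ[𝓝 0] h := by
            filter_upwards [hh] with z hz using hz.symm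
          exact tendsto_id.congr' e
        | cons n a b c g h k hT hH hk ih =>
          obtain ⟨ga, g0, gd, -⟩ := TR1 I a b g hT
          have e : (fun z : ℂ => h (g z)) =ᶠ[𝓝 0] k := by
            filter_upwards [hk] with z hz using hz.symm
          exact (ih.comp (tendsto_zero ga g0)).congr' e
      exact key hH'
    refine ⟨hla.congr e, ?_, ?_, fun z => g' (h' z),
      hol_snoc TR2 I hH' hT' (Eventually.of_forall fun z => rfl), ?_, ?_⟩
    · rw [hk.self_of_nhds, g0, h0]
    · rw [← e.deriv_eq]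
      have h1 : HasDerivAt g (deriv g 0) 0 := ga.differentiableAt.hasDerivAt
      have h2 : HasDerivAt h (deriv h 0) (g 0) := by
        rw [g0]; exact ha.differentiableAt.hasDerivAt
      have := (h2.comp 0 h1).deriv
      have e2 : deriv (fun z : ℂ => h (g z)) 0 = deriv h 0 * deriv g 0 := this
      rw [e2]
      exact mul_ne_zero hd gd
    · filter_upwards [hk, gl, tg.eventually hl] with z h1 h2 h3
      rw [h1, h3, h2]
    · have t2 : Tendsto (fun z => g' (h' z)) (𝓝 0) (𝓝 0) := tg'.comp th'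
      filter_upwards [t2.eventually hk, th'.eventually gr, hr] with z h1 h2 h3
      rw [h1, h2, h3]

theorem om_open (I : Inf) : IsOpen I.Om := by
  have : Continuous fun s : ℂ => (I.b 0).eval s := (I.b 0).continuous
  exact isOpen_ne_fun this continuous_const

theorem om_preconnected (I : Inf) (hI : I.Good) : IsPreconnected I.Om := by
  have hb : I.b 0 ≠ 0 := by
    intro h
    have := hI.lead
    rw [h] at this
    simp at this
  have hfin : Set.Finite {s : ℂ | (I.b 0).eval s = 0} := by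
    have : {s : ℂ | (I.b 0).eval s = 0} = ((I.b 0).roots.toFinset : Set ℂ) := by
      ext s
      simp [hb, Polynomial.IsRoot]
    rw [this]
    exact Finset.finite_toSet _
  have e : I.Om = {s : ℂ | (I.b 0).eval s = 0}ᶜ := by
    ext s; simp [Inf.Om]
  rw [e]
  have hr : 1 < Module.rank ℝ ℂ := by
    rw [Complex.rank_real_complex]; norm_num
  exact (hfin.countable.isConnected_compl_of_one_lt_rank hr).isPreconnected

theorem hol3 (TR2 : S_TR2) (TR3 : S_TR3) : S_HOL3 := by
  intro I hI a ha b hb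
  have hpre := om_preconnected I hI
  rw [isPreconnected_iff_subset_of_disjoint] at hpre
  set S : Set ℂ := {c | c ∈ I.Om ∧ ∃ (n : ℕ) (h : ℂ → ℂ), I.Hol n a c h} with hS
  set U : Set ℂ := {c | c ∈ I.Om ∧ ¬ ∃ (n : ℕ) (h : ℂ → ℂ), I.Hol n a c h} with hU
  have hSo : IsOpen S := by
    rw [Metric.isOpen_iff]
    rintro c ⟨hc, n, h, hH⟩
    obtain ⟨η, δ, ζ, hL, hb⟩ := TR3 I c hc
    refine ⟨η / 96, by have := hL.η_pos; positivity, ?_⟩
    intro c' hc'
    have hT := hb c' hc'
    exact ⟨(TR2 I c c' _ hT).2.1, n + 1, _, hol_snoc TR2 I hH hT (Eventually.of_forall fun z => rfl)⟩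
  have hUo : IsOpen U := by
    rw [Metric.isOpen_iff]
    rintro c ⟨hc, hn⟩
    obtain ⟨η, δ, ζ, hL, hb⟩ := TR3 I c hc
    refine ⟨η / 96, by have := hL.η_pos; positivity, ?_⟩
    intro c' hc'
    have hT := hb c' hc'
    obtain ⟨-, hc'O, h', hT', -, -⟩ := TR2 I c c' _ hT
    refine ⟨hc'O, ?_⟩
    rintro ⟨n, h, hH⟩
    exact hn ⟨n + 1, _, hol_snoc TR2 I hH hT' (Eventually.of_forall fun z => rfl)⟩
  have hcov : I.Om ⊆ S ∪ U := by
    intro c hc
    by_cases h : ∃ (n : ℕ) (h : ℂ → ℂ), I.Hol n a c h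
    · exact Or.inl ⟨hc, h⟩
    · exact Or.inr ⟨hc, h⟩
  have hdis : I.Om ∩ (S ∩ U) = ∅ := by
    ext c
    simp only [mem_inter_iff, mem_empty_iff_false, iff_false]
    rintro ⟨-, ⟨-, h1⟩, ⟨-, h2⟩⟩
    exact h2 h1
  rcases hpre S U hSo hUo hcov hdis with h | h
  · exact (h hb).2
  · exfalso
    exact (h ha).2 ⟨0, id, Inf.Hol.nil a id ha (Eventually.of_forall fun z => rfl)⟩

end Pool.GL.H15
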