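import Pool.Agent.Helper15.GL.F11

/-! Swarm `GL`, part F14: transport of an invariant vector field. -/

set_option autoImplicit false

open Metric Set Filter Topology

namespace Pool.GL.H15

theorem yfam (TR1 : S_TR1) (TR2 : S_TR2) (HOL1 : S_HOL1) (HOL2 : S_HOL2) (HOL3 : S_HOL3) :
    S_YFAM := by
  intro I hI s₀ hs₀ X hX hX0 hX1 hinv
  have ex : ∀ a : ℂ, ∃ p : (ℂ → ℂ) × (ℂ → ℂ), a ∈ I.Om →
      (∃ n, I.Hol n s₀ a p.1 ∧ I.Hol n a s₀ p.2) ∧ (∀ᶠ z in 𝓝 (0 : ℂ), p.2 (p.1 z) = z) ∧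
        (∀ᶠ z in 𝓝 (0 : ℂ), p.1 (p.2 z) = z) := by
    intro a
    by_cases ha : a ∈ I.Om
    · obtain ⟨n, h, hH⟩ := HOL3 I hI s₀ hs₀ a ha
      obtain ⟨-, -, -, h', hH', h1, h2⟩ := HOL1 I n s₀ a h hH
      exact ⟨(h, h'), fun _ => ⟨⟨n, hH, hH'⟩, h1, h2⟩⟩
    · exact ⟨(id, id), fun h => absurd h ha⟩
  choose p hp using ex
  refine ⟨fun a w => deriv (p a).1 ((p a).2 w) * X ((p a).2 w), ?_⟩
  intro a ha
  obtain ⟨⟨n, hH, hH'⟩, hl, hr⟩ := hp a ha
  obtain ⟨fa, f0, fd, -⟩ := HOL1 I n s₀ a _ hH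
  obtain ⟨ga, g0, gd, -⟩ := HOL1 I n a s₀ _ hH'
  set f := (p a).1 with hf
  set g := (p a).2 with hg
  have fda : AnalyticAt ℂ (deriv f) 0 := fa.deriv
  have A1 : AnalyticAt ℂ (fun w => deriv f (g w)) 0 := by
    have : AnalyticAt ℂ (deriv f) (g 0) := by rw [g0]; exact fda
    exact this.comp ga
  have A2 : AnalyticAt ℂ (fun w => X (g w)) 0 := by
    have : AnalyticAt ℂ X (g 0) := by rw [g0]; exact hX
    exact this.comp ga
  have prod1 : deriv f 0 * deriv g 0 = 1 := by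
    have h1 : HasDerivAt g (deriv g 0) 0 := ga.differentiableAt.hasDerivAt
    have h2 : HasDerivAt f (deriv f 0) (g 0) := by
      rw [g0]; exact fa.differentiableAt.hasDerivAt
    have h3 := h2.comp 0 h1
    have e : (fun z : ℂ => z) =ᶠ[𝓝 0] (f ∘ g) := by
      filter_upwards [hr] with z hz using hz.symm
    have h4 := h3.congr_of_eventuallyEq e
    exact h4.unique (hasDerivAt_id 0)
  refine ⟨A1.mul A2, ?_, ?_, ?_⟩
  · show deriv f (g 0) * X (g 0) = 0
    rw [g0, hX0, mul_zero]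
  · have h1 : HasDerivAt g (deriv g 0) 0 := ga.differentiableAt.hasDerivAt
    have h2 : HasDerivAt X (deriv X 0) (g 0) := by
      rw [g0]; exact hX.differentiableAt.hasDerivAt
    have h3 : HasDerivAt (fun w => X (g w)) (deriv X 0 * deriv g 0) 0 := h2.comp 0 h1
    have h4 : HasDerivAt (fun w => deriv f (g w)) (deriv (fun w => deriv f (g w)) 0) 0 :=
      A1.differentiableAt.hasDerivAt
    have h5 := (h4.mul h3).deriv
    have h6 : deriv (fun w => deriv f (g w) * X (g w)) 0 =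
        deriv (fun w => deriv f (g w)) 0 * X (g 0) + deriv f (g 0) * (deriv X 0 * deriv g 0) := h5
    show deriv (fun w => deriv f (g w) * X (g w)) 0 = 1
    rw [h6, g0, hX0, hX1, mul_zero, one_mul, zero_add, prod1]
  · intro b h hT
    obtain ⟨-, hb, -⟩ := TR2 I a b h hT
    obtain ⟨hha, hh0, hhd, -⟩ := TR1 I a b h hT
    obtain ⟨⟨m, kH, kH'⟩, kl, kr⟩ := hp b hb
    obtain ⟨ka, k0, kd, -⟩ := HOL1 I m s₀ b _ kH
    obtain ⟨ka', k0', kd', -⟩ := HOL1 I m b s₀ _ kH'
    set k := (p b).1 with hk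
    set k' := (p b).2 with hk'
    -- the loop
    have hT1 : I.Hol 1 a b h :=
      Inf.Hol.cons 0 a b b h id h hT (Inf.Hol.nil b id hb (Eventually.of_forall fun z => rfl))
        (Eventually.of_forall fun z => rfl)
    have L1 := HOL2 I n 1 s₀ a b f h hH hT1
    have L2 := HOL2 I (n + 1) m s₀ b s₀ _ k' L1 kH'
    have hinvL := hinv _ _ L2
    obtain ⟨la, l0, -, -⟩ := HOL1 I _ _ _ _ L2
    set ℓ : ℂ → ℂ := fun z => k' (h (f z)) with hℓ
    have tf := tendsto_zero fa f0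
    have tg := tendsto_zero ga g0
    have th := tendsto_zero hha hh0
    have thf : Tendsto (fun z => h (f z)) (𝓝 0) (𝓝 0) := th.comp tf
    -- k ∘ ℓ = h ∘ f near 0
    have e1 : (fun z => k (ℓ z)) =ᶠ[𝓝 0] (fun z => h (f z)) := by
      filter_upwards [thf.eventually kr] with z hz using hz
    have e2 := e1.deriv
    -- derivatives of the two sides
    have tl := tendsto_zero la l0
    have d1 : ∀ᶠ z in 𝓝 (0 : ℂ), deriv (fun z => k (ℓ z)) z = deriv k (ℓ z) * deriv ℓ z := by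
      filter_upwards [la.eventually_analyticAt, tl.eventually ka.eventually_analyticAt]
        with z h1 h2
      exact (h2.differentiableAt.hasDerivAt.comp z h1.differentiableAt.hasDerivAt).deriv
    have d2 : ∀ᶠ z in 𝓝 (0 : ℂ), deriv (fun z => h (f z)) z = deriv h (f z) * deriv f z := by
      filter_upwards [fa.eventually_analyticAt, tf.eventually hha.eventually_analyticAt]
        with z h1 h2
      exact (h2.differentiableAt.hasDerivAt.comp z h1.differentiableAt.hasDerivAt).deriv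
    have all := (d1.and d2).and (e2.and hinvL)
    filter_upwards [tg.eventually all, hr] with z hz hfg
    obtain ⟨⟨q1, q2⟩, q3, q4⟩ := hz
    show deriv k (k' (h z)) * X (k' (h z)) = deriv h z * (deriv f (g z) * X (g z))
    have hlz : ℓ (g z) = k' (h z) := by rw [hℓ]; simp only; rw [hfg]
    rw [q1, q2, hfg] at q3
    have q4' : X (ℓ (g z)) = deriv ℓ (g z) * X (g z) := q4
    rw [← hlz, q4', ← mul_assoc, q3, mul_assoc]

end Pool.GL.H15
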