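import Pool.Agent.Helper15.GL.F14

/-! Swarm `GL`, part F19: two non-commuting loops. -/

set_option autoImplicit false

open Metric Set Filter Topology

namespace Pool.GL.H15

theorem nc (GINF : S_GINF) (CONTR : S_CONTR) (KOE : S_KOE) (YF : S_YFAM) (COEF : S_COEF)
    (ODEK : S_ODEK) (ALG1 : S_ALG1) (ALG2 : S_ALG2) (TR2 : S_TR2) (HOL1 : S_HOL1) : S_NC := by
  intro F hF
  have hI := GINF F hF
  obtain ⟨s₀, n, c, hc, hlt⟩ := CONTR F.inf hI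
  obtain ⟨ca, c0, cd, -⟩ := HOL1 F.inf n s₀ s₀ c hc
  obtain ⟨X, hX, hX0, hX1, hcomm⟩ := KOE c ca c0 cd hlt
  by_contra hno
  push Not at hno
  have hs₀ : s₀ ∈ F.inf.Om := hol_mem TR2 F.inf hc
  have hinv : ∀ (m : ℕ) (h : ℂ → ℂ), F.inf.Hol m s₀ s₀ h →
      ∀ᶠ z in 𝓝 (0 : ℂ), X (h z) = deriv h z * X z := by
    intro m h hh
    obtain ⟨ha, h0, hd, -⟩ := HOL1 F.inf m s₀ s₀ h hh
    exact hcomm h ha h0 hd (hno s₀ n m c h hc hh hlt)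
  obtain ⟨Y, hY⟩ := YF F.inf hI s₀ hs₀ X hX hX0 hX1 hinv
  obtain ⟨φ, hφ⟩ := COEF F.inf Y hY
  obtain ⟨p, hp⟩ := ODEK F.inf hI φ hφ
  obtain ⟨f, h1, h2, h3⟩ := ALG1 F hF.degP hF.degQ p hp
  exact ALG2 F hF f h1 h2 h3

end Pool.GL.H15
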